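import Pool.Agent.Q2.FK.Defs

set_option autoImplicit false

/-!
# Regular modules of a quotient
-/

namespace Q2.FK

open TensorProduct Coalgebra

section
variable {k : Type} [Field k] {A : Type} [CommRing A] [Bialgebra k A]

/-- `a ↦ ∑ a₁ f(a₂)` -/
noncomputable def Rop (f : A →ₗ[k] k) : A →ₗ[k] A := coact (comul (R := k) (A := A)) f

theorem Rop_apply (f : A →ₗ[k] k) (a : A) :
    Rop f a = TensorProduct.rid k _ (f.lTensor A (comul a)) := rfl

/-- transport of the action of functionals which vanish on the ideal of the Frobenius kernel: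
a usual isomorphism of comodules over the quotient yields the compatibility in `IsRegular` -/
theorem act_regular {M : Type} [AddCommGroup M] [Module k M] (C : Comod k A M) (I : Ideal A)
    (e : M ≃ₗ[k] A ⧸ I)
    (he : ∀ (m : M) (a : A), e m = Ideal.Quotient.mk I a →
      TensorProduct.map e.toLinearMap (Ideal.Quotient.mkₐ k I).toLinearMap (C.δ m) =
      TensorProduct.map (Ideal.Quotient.mkₐ k I).toLinearMap
        (Ideal.Quotient.mkₐ k I).toLinearMap (comul (R := k) a))
    (f : A →ₗ[k] k) (hf : ∀ a ∈ I, f a = 0) (m : M) (a : A)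
    (hm : e m = Ideal.Quotient.mk I a) :
    e (C.act f m) = Ideal.Quotient.mk I (Rop f a) := by
  let fb : (A ⧸ I) →ₗ[k] k :=
    (I.restrictScalars k).liftQ f (fun a ha => hf a ha)
  have hfb : ∀ a, fb (Ideal.Quotient.mk I a) = f a := fun a => rfl
  have h1 : ∀ t : M ⊗[k] A, e (TensorProduct.rid k M (f.lTensor M t)) =
      TensorProduct.rid k _ (fb.lTensor _ (TensorProduct.map e.toLinearMap
        (Ideal.Quotient.mkₐ k I).toLinearMap t)) := by
    intro t
    induction t using TensorProduct.induction_on with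
    | zero => simp
    | add x y hx hy => simp only [map_add, hx, hy]
    | tmul x b => simp [hfb]
  have h2 : ∀ t : A ⊗[k] A, Ideal.Quotient.mk I (TensorProduct.rid k _ (f.lTensor _ t)) =
      TensorProduct.rid k _ (fb.lTensor _ (TensorProduct.map (Ideal.Quotient.mkₐ k I).toLinearMap
        (Ideal.Quotient.mkₐ k I).toLinearMap t)) := by
    intro t
    induction t using TensorProduct.induction_on with
    | zero => simp
    | add x y hx hy => simp only [map_add, hx, hy]
    | tmul x b =>
      simp only [LinearMap.lTensor_tmul, TensorProduct.rid_tmul, TensorProduct.map_tmul,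
        AlgHom.coe_toLinearMap, Ideal.Quotient.mkₐ_eq_mk, hfb]
      rfl
  rw [C.act_apply, h1, he m a hm, Rop_apply, h2]

/-- If all functionals vanishing on `I` act through commuting operators on a regular module, the
comultiplication is cocommutative modulo `I`. -/
theorem Rop_comm {M : Type} [AddCommGroup M] [Module k M] (C : Comod k A M) (I : Ideal A)
    (hI : ∀ a ∈ I, Coalgebra.counit (R := k) a = 0) (e : M ≃ₗ[k] A ⧸ I)
    (he : ∀ f : A →ₗ[k] k, (∀ a ∈ I, f a = 0) → ∀ (m : M) (a : A), e m = Ideal.Quotient.mk _ a →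
      e (C.act f m) = Ideal.Quotient.mk _ (Rop f a))
    (f h : A →ₗ[k] k) (hf : ∀ a ∈ I, f a = 0) (hh : ∀ a ∈ I, h a = 0)
    (hc : ∀ m, C.act f (C.act h m) = C.act h (C.act f m)) (a : A) :
    Coalgebra.counit (R := k) (Rop f (Rop h a)) = Coalgebra.counit (R := k) (Rop h (Rop f a)) := by
  obtain ⟨m, hm⟩ := e.surjective (Ideal.Quotient.mk I a)
  have h1 := he h hh m a hm
  have h2 := he f hf _ _ h1
  have h3 := he f hf m a hm
  have h4 := he h hh _ _ h3
  rw [hc m, h4, Ideal.Quotient.eq] at h2
  have h5 := hI _ h2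
  rw [map_sub, sub_eq_zero] at h5
  exact h5.symm

end

end Q2.FK
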