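import Pool.Agent.Q2.FK.Coord
import Pool.Agent.Q2.FK.Reg

set_option autoImplicit false
set_option linter.unusedSectionVars false

/-!
# Rational points are central
-/

namespace Q2.FK

open TensorProduct Coalgebra Bialgebra WithConv

section gen
variable {k : Type} [Field k] {A : Type} [CommRing A] [Bialgebra k A]

/-- left translation by a point -/
noncomputable def Lt (P : A →ₐ[k] k) : A →ₐ[k] A :=
  (Algebra.TensorProduct.lift ((Algebra.ofId k A).comp P) (AlgHom.id k A)
    (fun _ _ => Commute.all _ _)).comp (comulAlgHom k A)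

/-- right translation by a point -/
noncomputable def Rt (P : A →ₐ[k] k) : A →ₐ[k] A :=
  (Algebra.TensorProduct.lift (AlgHom.id k A) ((Algebra.ofId k A).comp P)
    (fun _ _ => Commute.all _ _)).comp (comulAlgHom k A)

theorem conv_left (P : A →ₐ[k] k) (f : A →ₗ[k] k) (a : A) :
    conv P.toLinearMap f a = f (Lt P a) := by
  have key : ∀ t : A ⊗[k] A, TensorProduct.lid k k (TensorProduct.map P.toLinearMap f t) =
      f (Algebra.TensorProduct.lift ((Algebra.ofId k A).comp P) (AlgHom.id k A)
    (fun _ _ => Commute.all _ _) t) := by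
    intro t
    induction t using TensorProduct.induction_on with
    | zero => simp
    | add x y hx hy => simp only [map_add, hx, hy]
    | tmul x b =>
      simp [Algebra.ofId_apply, ← Algebra.smul_def]
  rw [conv_eq]
  exact key (comul a)

theorem conv_right (P : A →ₐ[k] k) (f : A →ₗ[k] k) (a : A) :
    conv f P.toLinearMap a = f (Rt P a) := by
  have key : ∀ t : A ⊗[k] A, TensorProduct.lid k k (TensorProduct.map f P.toLinearMap t) =
      f (Algebra.TensorProduct.lift (AlgHom.id k A) ((Algebra.ofId k A).comp P)
    (fun _ _ => Commute.all _ _) t) := by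
    intro t
    induction t using TensorProduct.induction_on with
    | zero => simp
    | add x y hx hy => simp only [map_add, hx, hy]
    | tmul x b =>
      simp [Algebra.ofId_apply, mul_comm x, ← Algebra.smul_def, mul_comm (f x)]
  rw [conv_eq]
  exact key (comul a)

end gen

section
variable (F : Type) [Field F] [Fintype F] (k : Type) [Field k] [Algebra F k]

theorem point_ls (g : Co F →ₐ[F] F) (i : Fin 3) : point k g (ls F k i) = 0 := by
  rw [ls_eq]
  simp only [point, Algebra.TensorProduct.lift_tmul, map_one, one_mul, AlgHom.comp_apply]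
  rw [lang_map, lang_apply, FiniteField.pow_card, sub_self, map_zero]

theorem translations_eq (g : Co F →ₐ[F] F) : Lt (point k g) = Rt (point k g) := by
  apply alg_ext
  intro i
  have h0 := comul_0 F k
  have h1 := comul_1 F k
  have h2 := comul_2 F k
  fin_cases i
  · simp [Lt, Rt, h0, add_comm]
    exact mul_comm _ _
  · simp [Lt, Rt, h1, add_comm]
    exact mul_comm _ _
  · simp [Lt, Rt, h2, add_comm, point_ls]
    exact mul_comm _ _

theorem conv_point_comm (g : Co F →ₐ[F] F) (f : Bk F k →ₗ[k] k) :
    conv (point k g).toLinearMap f = conv f (point k g).toLinearMap := by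
  apply LinearMap.ext
  intro a
  rw [conv_left, conv_right, translations_eq]

theorem act_point_comm {M : Type} [AddCommGroup M] [Module k M] (C : Comod k (Bk F k) M)
    (g : Co F →ₐ[F] F) (f : Bk F k →ₗ[k] k) (m : M) :
    C.act (point k g).toLinearMap (C.act f m) = C.act f (C.act (point k g).toLinearMap m) := by
  have h1 : C.act (point k g).toLinearMap (C.act f m) = C.act (conv (point k g).toLinearMap f) m :=
    C.act_act _ _ m
  have h2 : C.act f (C.act (point k g).toLinearMap m) = C.act (conv f (point k g).toLinearMap) m :=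
    C.act_act _ _ m
  rw [h1, h2, conv_point_comm]

theorem Rop_values : Coalgebra.counit (R := k) (Rop (dI F k 0) (Rop (dI F k 1) (xs F k 2))) = 1 ∧
    Coalgebra.counit (R := k) (Rop (dI F k 1) (Rop (dI F k 0) (xs F k 2))) = 0 := by
  have h1 : Rop (dI F k 1) (xs F k 2) = ls F k 0 := by
    rw [Rop_apply, comul_2]
    simp [dI_one, dI_xs, dI_ls]
  have h2 : Rop (dI F k 0) (ls F k 0) = 1 := by
    rw [Rop_apply, comul_l0]
    simp [dI_one, dI_ls]
  have h3 : Rop (dI F k 0) (xs F k 2) = 0 := by
    rw [Rop_apply, comul_2]
    simp [dI_one, dI_xs, dI_ls]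
  constructor
  · rw [h1, h2, Bialgebra.counit_one]
  · rw [h3, map_zero, map_zero]

end

end Q2.FK
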