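import Pool.Agent.Q2.FK.Exam

set_option autoImplicit false
set_option linter.unusedSectionVars false

/-!
# The base change of the coordinate ring
-/

namespace Q2.FK

open TensorProduct Coalgebra Bialgebra WithConv

section
variable (F : Type) [Field F] [Fintype F] (k : Type) [Field k] [Algebra F k]

/-- the base change -/
abbrev Bk : Type := k ⊗[F] Co F

/-- identification with the polynomial ring over `k` -/
noncomputable def Φ : Bk F k ≃ₐ[k] MvPolynomial (Fin 3) k :=
  (Algebra.TensorProduct.congr (AlgEquiv.refl : k ≃ₐ[k] k) (toP F)).trans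
    (MvPolynomial.algebraTensorAlgEquiv F k)

/-- coordinates -/
noncomputable def xs (i : Fin 3) : Bk F k := 1 ⊗ₜ x F i

theorem Φ_xs (i : Fin 3) : Φ F k (xs F k i) = MvPolynomial.X i := by
  simp [Φ, xs, x]

theorem alg_ext {B : Type*} [Semiring B] [Algebra k B] {f g : Bk F k →ₐ[k] B}
    (h : ∀ i, f (xs F k i) = g (xs F k i)) : f = g := by
  have h1 : f.comp (Φ F k).symm.toAlgHom = g.comp (Φ F k).symm.toAlgHom := by
    apply MvPolynomial.algHom_ext
    intro i
    have h2 : (Φ F k).symm (MvPolynomial.X i) = xs F k i := by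
      rw [← Φ_xs F k i, AlgEquiv.symm_apply_apply]
    simpa [h2] using h i
  apply AlgHom.ext
  intro a
  have h2 := AlgHom.congr_fun h1 (Φ F k a)
  simpa using h2

theorem counit_xs (i : Fin 3) : Coalgebra.counit (R := k) (xs F k i) = 0 := by
  unfold xs
  rw [TensorProduct.counit_tmul, counit_co, ε₀_X, zero_smul]

theorem counit_eq (a : Bk F k) : Coalgebra.counit (R := k) a =
    MvPolynomial.constantCoeff (Φ F k a) := by
  have h : Bialgebra.counitAlgHom k (Bk F k) =
      (MvPolynomial.aeval (fun _ : Fin 3 => (0 : k))).comp (Φ F k).toAlgHom := by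
    apply alg_ext
    intro i
    have h1 : (Φ F k) (xs F k i) = MvPolynomial.X i := Φ_xs F k i
    have h2 : Bialgebra.counitAlgHom k (Bk F k) (xs F k i) = 0 := counit_xs F k i
    rw [h2]
    simp [h1]
  have h1 := AlgHom.congr_fun h a
  have h2 : Bialgebra.counitAlgHom k (Bk F k) a = Coalgebra.counit (R := k) a := rfl
  rw [← h2, h1]
  simp [MvPolynomial.constantCoeff_eq]

/-! ### comultiplication -/

theorem comul_0 : comul (R := k) (xs F k 0) = xs F k 0 ⊗ₜ 1 + 1 ⊗ₜ xs F k 0 := by
  unfold xs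
  rw [TensorProduct.comul_tmul, comul_co, Δ₀_0]
  simp [tmul_add, Algebra.TensorProduct.one_def]

theorem comul_1 : comul (R := k) (xs F k 1) = xs F k 1 ⊗ₜ 1 + 1 ⊗ₜ xs F k 1 := by
  unfold xs
  rw [TensorProduct.comul_tmul, comul_co, Δ₀_1]
  simp [tmul_add, Algebra.TensorProduct.one_def]

/-- `t - t ^ q` for the coordinates -/
noncomputable def ls (i : Fin 3) : Bk F k := xs F k i - xs F k i ^ Fintype.card F

theorem ls_eq (i : Fin 3) : ls F k i = 1 ⊗ₜ lang F _ (x F i) := by
  unfold ls xs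
  rw [lang_apply, tmul_sub, Algebra.TensorProduct.tmul_pow, one_pow]

theorem comul_2 : comul (R := k) (xs F k 2) = xs F k 2 ⊗ₜ 1 + 1 ⊗ₜ xs F k 2 +
    ls F k 0 ⊗ₜ ls F k 1 := by
  rw [ls_eq, ls_eq]
  unfold xs
  rw [TensorProduct.comul_tmul, comul_co, Δ₀_2]
  simp [tmul_add, Algebra.TensorProduct.one_def]

theorem comul_l0 : comul (R := k) (ls F k 0) = ls F k 0 ⊗ₜ 1 + 1 ⊗ₜ ls F k 0 := by
  rw [ls_eq, TensorProduct.comul_tmul, comul_co, Δ₀_l0]
  simp [tmul_add, Algebra.TensorProduct.one_def]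

/-! ### derivatives at the origin -/

/-- derivative at the origin in the direction of the `i`-th coordinate -/
noncomputable def dI (i : Fin 3) : Bk F k →ₗ[k] k :=
  (MvPolynomial.aeval (fun _ : Fin 3 => (0 : k))).toLinearMap ∘ₗ
    (MvPolynomial.pderiv i).toLinearMap ∘ₗ (Φ F k).toLinearMap

theorem dI_apply (i : Fin 3) (a : Bk F k) : dI F k i a =
    MvPolynomial.constantCoeff (MvPolynomial.pderiv i (Φ F k a)) := by
  simp [dI, MvPolynomial.constantCoeff_eq]

theorem dI_mul (i : Fin 3) (a b : Bk F k) : dI F k i (a * b) =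
    Coalgebra.counit (R := k) a * dI F k i b + Coalgebra.counit (R := k) b * dI F k i a := by
  rw [dI_apply, dI_apply, dI_apply, counit_eq, counit_eq, map_mul, Derivation.leibniz, map_add,
    smul_eq_mul, smul_eq_mul, map_mul, map_mul]

theorem dI_pow (i : Fin 3) (a : Bk F k) (ha : Coalgebra.counit (R := k) a = 0) (n : ℕ) (hn : 2 ≤ n) :
    dI F k i (a ^ n) = 0 := by
  obtain ⟨m, rfl⟩ := Nat.exists_eq_add_of_le hn
  have : a ^ (2 + m) = a * (a * a ^ m) := by ring
  rw [this, dI_mul, Bialgebra.counit_mul, ha]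
  ring

theorem dI_xs (i j : Fin 3) : dI F k i (xs F k j) = if i = j then 1 else 0 := by
  rw [dI_apply, Φ_xs, MvPolynomial.pderiv_X, Pi.single_apply]
  split_ifs <;> simp_all

theorem dI_one (i : Fin 3) : dI F k i 1 = 0 := by
  rw [dI_apply]; simp

theorem dI_ls (i j : Fin 3) : dI F k i (ls F k j) = if i = j then 1 else 0 := by
  unfold ls
  rw [map_sub, dI_xs, dI_pow F k i _ (counit_xs F k j) _ Fintype.one_lt_card, sub_zero]

theorem dI_frob (i : Fin 3) {q : ℕ} (hq : 2 ≤ q) (a : Bk F k) (ha : a ∈ frobIdeal k (Bk F k) q) :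
    dI F k i a = 0 := by
  unfold frobIdeal at ha
  have key : dI F k i a = 0 ∧ Coalgebra.counit (R := k) a = 0 := by
    induction ha using Submodule.span_induction with
    | mem x hx =>
      obtain ⟨f, hf, rfl⟩ := hx
      refine ⟨dI_pow F k i f hf q hq, ?_⟩
      rw [Bialgebra.counit_pow, hf, zero_pow (by omega)]
    | zero => exact ⟨map_zero _, map_zero _⟩
    | add x y _ _ hx hy => exact ⟨by rw [map_add, hx.1, hy.1, add_zero],
        by rw [map_add, hx.2, hy.2, add_zero]⟩
    | smul r x _ hx =>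
      refine ⟨?_, ?_⟩
      · rw [smul_eq_mul, dI_mul, hx.1, hx.2]; ring
      · rw [smul_eq_mul, Bialgebra.counit_mul, hx.2, mul_zero]
  exact key.1

theorem counit_frob {q : ℕ} (hq : 2 ≤ q) (a : Bk F k) (ha : a ∈ frobIdeal k (Bk F k) q) :
    Coalgebra.counit (R := k) a = 0 := by
  unfold frobIdeal at ha
  induction ha using Submodule.span_induction with
  | mem x hx =>
    obtain ⟨f, hf, rfl⟩ := hx
    rw [Bialgebra.counit_pow, hf, zero_pow (by omega)]
  | zero => exact map_zero _
  | add x y _ _ hx hy => rw [map_add, hx, hy, add_zero]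
  | smul r x _ hx => rw [smul_eq_mul, Bialgebra.counit_mul, hx, mul_zero]

end

end Q2.FK
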