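import Mathlib

set_option autoImplicit false

/-!
# Rational modules, Frobenius kernels and groups of rational points
-/

namespace Q2.FK

open TensorProduct Coalgebra Bialgebra WithConv

universe u v w

section comod
variable {k : Type u} [CommRing k] {A : Type v} [CommRing A] {M : Type w} [AddCommGroup M]
  [Module k M]

/-- `(id ⊗ f) ∘ δ` for a map `δ : M → M ⊗ A` and a functional `f` on `A`. -/
def coact [Algebra k A] (δ : M →ₗ[k] M ⊗[k] A) (f : A →ₗ[k] k) : M →ₗ[k] M :=
  (TensorProduct.rid k M).toLinearMap ∘ₗ f.lTensor M ∘ₗ δ

/-- The convolution product of functionals: `(f * h)(a) = ∑ f(a₁) h(a₂)`. -/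
def conv [Bialgebra k A] (f h : A →ₗ[k] k) : A →ₗ[k] k :=
  f ∘ₗ coact (comul (R := k) (A := A)) h

variable (k A M) in
/-- A rational module `M` of the affine group scheme with coordinate algebra `A`, i.e. a right
`A`-comodule. Coassociativity and the counit law are stated by applying functionals on `A`. -/
structure Comod [Bialgebra k A] where
  /-- the coaction -/
  δ : M →ₗ[k] M ⊗[k] A
  /-- coassociativity, after applying functionals `f` and `h` to the last two factors of
  `M ⊗ A ⊗ A` -/
  act_act : ∀ (f h : A →ₗ[k] k) (m : M), coact δ f (coact δ h m) = coact δ (conv f h) m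
  /-- the counit law -/
  act_counit : ∀ m : M, coact δ (Coalgebra.counit (R := k) (A := A)) m = m

variable [Bialgebra k A]

/-- The operator on a rational module defined by a linear functional on the coordinate algebra;
for a point `g` of the group (an algebra map `A → k`) it is the action of `g`. -/
def Comod.act (C : Comod k A M) (f : A →ₗ[k] k) : M →ₗ[k] M := coact C.δ f

theorem Comod.act_apply (C : Comod k A M) (f : A →ₗ[k] k) (m : M) :
    C.act f m = TensorProduct.rid k M (f.lTensor M (C.δ m)) := rfl

theorem conv_eq (f h : A →ₗ[k] k) :
    conv f h = (TensorProduct.lid k k).toLinearMap ∘ₗ TensorProduct.map f h ∘ₗ comul := by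
  have key : ∀ t : A ⊗[k] A, f (TensorProduct.rid k A (h.lTensor A t)) =
      TensorProduct.lid k k (TensorProduct.map f h t) := by
    intro t
    induction t using TensorProduct.induction_on with
    | zero => simp
    | add x y hx hy => simp only [map_add, hx, hy]
    | tmul x a => simp [mul_comm]
  apply LinearMap.ext
  intro a
  exact key (comul a)

/-- A right comodule in the usual sense is a rational module in the sense of `Comod`. -/
def Comod.ofCoassoc (δ : M →ₗ[k] M ⊗[k] A)
    (coassoc : (TensorProduct.assoc k M A A).toLinearMap ∘ₗ δ.rTensor A ∘ₗ δ =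
      (comul (R := k) (A := A)).lTensor M ∘ₗ δ)
    (counit : (Coalgebra.counit (R := k) (A := A)).lTensor M ∘ₗ δ =
      (TensorProduct.mk k M k).flip 1) : Comod k A M where
  δ := δ
  act_act f h m := by
    have key : ∀ t : M ⊗[k] A,
        TensorProduct.rid k M (f.lTensor M (δ (TensorProduct.rid k M (h.lTensor M t)))) =
        TensorProduct.rid k M (((TensorProduct.lid k k).toLinearMap ∘ₗ
          TensorProduct.map f h).lTensor M (TensorProduct.assoc k M A A (δ.rTensor A t))) := by
      intro t
      induction t using TensorProduct.induction_on with
      | zero => simp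
      | add x y hx hy => simp only [map_add, hx, hy]
      | tmul x a =>
        simp only [LinearMap.lTensor_tmul, TensorProduct.rid_tmul, LinearMap.rTensor_tmul, map_smul]
        generalize δ x = s
        induction s using TensorProduct.induction_on with
        | zero => simp
        | add x y hx hy => simp only [map_add, hx, hy, smul_add, TensorProduct.add_tmul]
        | tmul x b =>
          simp only [LinearMap.lTensor_tmul, TensorProduct.rid_tmul, TensorProduct.assoc_tmul,
            LinearMap.comp_apply, TensorProduct.map_tmul, LinearEquiv.coe_coe,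
            TensorProduct.lid_tmul, smul_smul, smul_eq_mul]
          rw [mul_comm]
    change TensorProduct.rid k M (f.lTensor M (δ (TensorProduct.rid k M (h.lTensor M (δ m))))) =
      TensorProduct.rid k M ((conv f h).lTensor M (δ m))
    rw [key]
    have h1 := LinearMap.congr_fun coassoc m
    simp only [LinearMap.comp_apply, LinearEquiv.coe_coe] at h1
    rw [h1, conv_eq]
    congr 1
    rw [← LinearMap.comp_apply, ← LinearMap.lTensor_comp]
    rfl
  act_counit m := by
    change TensorProduct.rid k M ((Coalgebra.counit (R := k) (A := A)).lTensor M (δ m)) = m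
    have h1 := LinearMap.congr_fun counit m
    simp only [LinearMap.comp_apply] at h1
    rw [h1]
    simp

variable (k A) in
/-- The ideal of the `r`-th Frobenius kernel (`q = p ^ r`): it is generated by the `q`-th powers of
the functions vanishing at the neutral element. The coordinate algebra of the Frobenius kernel is
the quotient by this ideal. -/
def frobIdeal (q : ℕ) : Ideal A := Ideal.span {x | ∃ f : A, Coalgebra.counit (R := k) f = 0 ∧ x = f ^ q}

variable (k A) in
/-- The coordinate algebra `A ⧸ frobIdeal k A q` of the Frobenius kernel `U_r`, `q = p ^ r`. -/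
def KerAlg (q : ℕ) : Type v := A ⧸ frobIdeal k A q

instance (q : ℕ) : AddCommGroup (KerAlg k A q) := (inferInstance : AddCommGroup (A ⧸ frobIdeal k A q))
instance (q : ℕ) : Module k (KerAlg k A q) := (inferInstance : Module k (A ⧸ frobIdeal k A q))

variable (k) in
/-- restriction of functions to the Frobenius kernel -/
def toKer (q : ℕ) (a : A) : KerAlg k A q := Ideal.Quotient.mk (frobIdeal k A q) a

/-- The regular action of a functional: `reg f a = ∑ a₁ f(a₂)`. -/
def reg (f : A →ₗ[k] k) (a : A) : A := coact (comul (R := k) (A := A)) f a

/-- The linear isomorphism `e` between `M` and the coordinate algebra `k[U_r]` of the Frobenius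
kernel is compatible with the action of all functionals `f` on `k[U_r]` (these are the functionals
on `A` which vanish on `frobIdeal k A q`), where `f` acts on `k[U_r]` by `a ↦ ∑ a₁ f(a₂)`. -/
def Comod.Compat (C : Comod k A M) (q : ℕ) (e : M ≃ₗ[k] KerAlg k A q) : Prop :=
  ∀ f : A →ₗ[k] k, (∀ a ∈ frobIdeal k A q, f a = 0) →
    ∀ (m : M) (a : A), e m = toKer k q a → e (C.act f m) = toKer k q (reg f a)

/-- `M` restricted to the Frobenius kernel `U_r` is isomorphic to its coordinate algebra with the
regular action. -/
def Comod.IsRegular (C : Comod k A M) (q : ℕ) : Prop := ∃ e : M ≃ₗ[k] KerAlg k A q, C.Compat q e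

/-- `m` is a fixed vector -/
def Comod.IsFixed (C : Comod k A M) (m : M) : Prop := C.δ m = m ⊗ₜ 1

variable (k A) in
/-- The group scheme with coordinate algebra `A` is unipotent: every nonzero rational module has a
nonzero fixed vector. -/
def IsUnipotent : Prop :=
  ∀ (N : Type) [AddCommGroup N] [Module k N] [Nontrivial N] (C : Comod k A N),
    ∃ m : N, m ≠ 0 ∧ C.IsFixed m

end comod

section points
variable (F : Type v) [Field F] (k : Type u) [Field k] [Algebra F k] (A : Type v) [CommRing A]
  [HopfAlgebra F A] {M : Type w} [AddCommGroup M] [Module k M]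

/-- The base change `k ⊗ A` of the Hopf algebra `A` over `F` to `k`. -/
def BC : Type (max u v) := k ⊗[F] A

noncomputable instance : CommRing (BC F k A) := (inferInstance : CommRing (k ⊗[F] A))
noncomputable instance : HopfAlgebra k (BC F k A) := (inferInstance : HopfAlgebra k (k ⊗[F] A))

variable {F A} in
/-- a rational point over `F`, viewed as a `k`-valued point of the base change -/
def point (g : A →ₐ[F] F) : k ⊗[F] A →ₐ[k] k :=
  Algebra.TensorProduct.lift (Algebra.ofId k k) ((Algebra.ofId F k).comp g)
    (fun _ _ => Commute.all _ _)

variable {F A} in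
/-- The functional on the base change defined by a rational point, `c ⊗ a ↦ c g(a)`. -/
def pointFun (g : A →ₐ[F] F) : BC F k A →ₗ[k] k := (point k g).toLinearMap

variable {k F A}

theorem point_one : (point k (1 : WithConv (A →ₐ[F] F)).ofConv).toLinearMap =
    Coalgebra.counit (R := k) (A := k ⊗[F] A) := by
  ext a
  simp [point, Algebra.algebraMap_eq_smul_one]

theorem point_mul (g h : WithConv (A →ₐ[F] F)) :
    (point k (g * h).ofConv).toLinearMap =
      conv (point k g.ofConv).toLinearMap (point k h.ofConv).toLinearMap := by
  have key : ∀ t : A ⊗[F] A,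
      (Algebra.ofId F k) (Algebra.TensorProduct.lift g.ofConv h.ofConv (fun _ _ => Commute.all _ _) t) =
      TensorProduct.lid k k (TensorProduct.map (point k g.ofConv).toLinearMap
        (point k h.ofConv).toLinearMap
        (AlgebraTensorModule.tensorTensorTensorComm F k F k k k A A ((1 ⊗ₜ 1) ⊗ₜ t))) := by
    intro t
    induction t using TensorProduct.induction_on with
    | zero => simp
    | add x y hx hy => simp only [map_add, hx, hy, TensorProduct.tmul_add]
    | tmul x y => simp [point, Algebra.ofId_apply]
  rw [conv_eq]
  ext a
  have h1 := key (comul a)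
  rw [← AlgHom.convMul_apply] at h1
  simp only [AlgebraTensorModule.curry_apply, curry_apply,
    LinearMap.coe_restrictScalars, AlgHom.coe_toLinearMap, LinearMap.comp_apply,
    comul_tmul, CommSemiring.comul_apply, LinearEquiv.coe_coe]
  rw [← h1]
  simp [point]

/-- The finite group of `F`-rational points (with the convolution product) acts on every rational
module of the base change. -/
noncomputable def Comod.pointRep (C : Comod k (BC F k A) M) :
    Representation k (WithConv (A →ₐ[F] F)) M where
  toFun g := C.act (pointFun k g.ofConv)
  map_one' := by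
    ext m
    have h1 : pointFun k (1 : WithConv (A →ₐ[F] F)).ofConv =
      Coalgebra.counit (R := k) (A := BC F k A) := point_one
    rw [h1]
    exact C.act_counit m
  map_mul' g h := by
    ext m
    have h1 : pointFun k (g * h).ofConv = conv (pointFun k g.ofConv) (pointFun k h.ofConv) :=
      point_mul g h
    rw [h1]
    exact (C.act_act _ _ m).symm

end points

end Q2.FK
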