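import Pool.Agent.Q2.FK.Defs

set_option autoImplicit false
set_option linter.unusedSectionVars false

/-!
# A unipotent group whose rational points are central
-/

namespace Q2.FK

open TensorProduct Coalgebra Bialgebra WithConv

section frob
variable (F : Type) [Field F] [Fintype F] (R : Type*) [CommRing R] [Algebra F R]

/-- the homomorphism `t ↦ t - t ^ q` -/
def lang : R →ₗ[F] R := LinearMap.id - (FiniteField.frobeniusAlgHom F R).toLinearMap

variable {R}

theorem lang_apply (t : R) : lang F R t = t - t ^ Fintype.card F := by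
  simp [lang]

theorem lang_map {S : Type*} [CommRing S] [Algebra F S] (f : R →ₐ[F] S) (t : R) :
    f (lang F R t) = lang F S (f t) := by
  rw [lang_apply, lang_apply, map_sub, map_pow]

end frob

variable (F : Type) [Field F]

/-- the coordinate ring of affine 3-space -/
def Co : Type := MvPolynomial (Fin 3) F

noncomputable instance : CommRing (Co F) := inferInstanceAs (CommRing (MvPolynomial (Fin 3) F))
noncomputable instance : Algebra F (Co F) := inferInstanceAs (Algebra F (MvPolynomial (Fin 3) F))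

/-- identity -/
noncomputable def toP : Co F ≃ₐ[F] MvPolynomial (Fin 3) F := AlgEquiv.refl

/-- the coordinates -/
noncomputable def x (i : Fin 3) : Co F := (toP F).symm (MvPolynomial.X i)

variable {F} in
/-- algebra maps out of the coordinate ring -/
noncomputable def ev {B : Type*} [CommRing B] [Algebra F B] (v : Fin 3 → B) : Co F →ₐ[F] B :=
  (MvPolynomial.aeval v).comp (toP F).toAlgHom

variable {F} in
theorem ev_x {B : Type*} [CommRing B] [Algebra F B] (v : Fin 3 → B) (i : Fin 3) :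
    ev v (x F i) = v i := by
  simp [ev, x]

variable {F} in
theorem co_ext {B : Type*} [Semiring B] [Algebra F B] {f g : Co F →ₐ[F] B}
    (h : ∀ i, f (x F i) = g (x F i)) : f = g := by
  have h1 : f.comp (toP F).symm.toAlgHom = g.comp (toP F).symm.toAlgHom := by
    apply MvPolynomial.algHom_ext
    intro i
    exact h i
  apply AlgHom.ext
  intro a
  exact AlgHom.congr_fun h1 (toP F a)

variable [Fintype F]

/-- comultiplication: the group law is
`(a,b,c)(a',b',c') = (a + a', b + b', c + c' + (a - a^q)(b' - b'^q))` -/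
noncomputable def Δ₀ : Co F →ₐ[F] Co F ⊗[F] Co F :=
  ev ![x F 0 ⊗ₜ 1 + 1 ⊗ₜ x F 0, x F 1 ⊗ₜ 1 + 1 ⊗ₜ x F 1,
    x F 2 ⊗ₜ 1 + 1 ⊗ₜ x F 2 + (x F 0 - x F 0 ^ Fintype.card F) ⊗ₜ (x F 1 - x F 1 ^ Fintype.card F)]

/-- counit -/
noncomputable def ε₀ : Co F →ₐ[F] F := ev ![0, 0, 0]

/-- antipode -/
noncomputable def S₀ : Co F →ₐ[F] Co F :=
  ev ![-x F 0, -x F 1, -x F 2 + (x F 0 - x F 0 ^ Fintype.card F) * (x F 1 - x F 1 ^ Fintype.card F)]

theorem Δ₀_0 : Δ₀ F (x F 0) = x F 0 ⊗ₜ 1 + 1 ⊗ₜ x F 0 := by simp [Δ₀, ev_x]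
theorem Δ₀_1 : Δ₀ F (x F 1) = x F 1 ⊗ₜ 1 + 1 ⊗ₜ x F 1 := by simp [Δ₀, ev_x]
theorem Δ₀_2 : Δ₀ F (x F 2) = x F 2 ⊗ₜ 1 + 1 ⊗ₜ x F 2 + lang F _ (x F 0) ⊗ₜ lang F _ (x F 1) := by
  simp [Δ₀, lang_apply, ev_x]

theorem Δ₀_l0 : Δ₀ F (lang F _ (x F 0)) = lang F _ (x F 0) ⊗ₜ 1 + 1 ⊗ₜ lang F _ (x F 0) := by
  rw [lang_map, Δ₀_0, map_add]
  congr 1
  · exact (lang_map F (Algebra.TensorProduct.includeLeft : Co F →ₐ[F] Co F ⊗[F] Co F) _).symm
  · exact (lang_map F (Algebra.TensorProduct.includeRight : Co F →ₐ[F] Co F ⊗[F] Co F) _).symm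

theorem Δ₀_l1 : Δ₀ F (lang F _ (x F 1)) = lang F _ (x F 1) ⊗ₜ 1 + 1 ⊗ₜ lang F _ (x F 1) := by
  rw [lang_map, Δ₀_1, map_add]
  congr 1
  · exact (lang_map F (Algebra.TensorProduct.includeLeft : Co F →ₐ[F] Co F ⊗[F] Co F) _).symm
  · exact (lang_map F (Algebra.TensorProduct.includeRight : Co F →ₐ[F] Co F ⊗[F] Co F) _).symm

theorem ε₀_X (i : Fin 3) : ε₀ F (x F i) = 0 := by
  fin_cases i <;> simp [ε₀, ev_x]

theorem ε₀_l (i : Fin 3) : ε₀ F (lang F _ (x F i)) = 0 := by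
  rw [lang_map, ε₀_X, map_zero]

/-- the bialgebra -/
noncomputable instance bialg : Bialgebra F (Co F) :=
  Bialgebra.ofAlgHom (Δ₀ F) (ε₀ F)
    (by
      apply co_ext
      intro i
      fin_cases i
      · simp [Δ₀_0, add_tmul, tmul_add, add_assoc, Algebra.TensorProduct.one_def]
      · simp [Δ₀_1, add_tmul, tmul_add, add_assoc, Algebra.TensorProduct.one_def]
      · simp [Δ₀_2, Δ₀_l0, Δ₀_l1, add_tmul, tmul_add, Algebra.TensorProduct.one_def]
        abel)
    (by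
      apply co_ext
      intro i
      fin_cases i
      · simp [Δ₀_0, ε₀_X]
      · simp [Δ₀_1, ε₀_X]
      · simp [Δ₀_2, ε₀_X, ε₀_l])
    (by
      apply co_ext
      intro i
      fin_cases i
      · simp [Δ₀_0, ε₀_X]
      · simp [Δ₀_1, ε₀_X]
      · simp [Δ₀_2, ε₀_X, ε₀_l])

theorem S₀_0 : S₀ F (x F 0) = -x F 0 := by simp [S₀, ev_x]
theorem S₀_1 : S₀ F (x F 1) = -x F 1 := by simp [S₀, ev_x]
theorem S₀_2 : S₀ F (x F 2) = -x F 2 + lang F _ (x F 0) * lang F _ (x F 1) := by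
  simp [S₀, lang_apply, ev_x]

theorem S₀_l0 : S₀ F (lang F _ (x F 0)) = -lang F _ (x F 0) := by
  rw [lang_map, S₀_0, map_neg]

theorem S₀_l1 : S₀ F (lang F _ (x F 1)) = -lang F _ (x F 1) := by
  rw [lang_map, S₀_1, map_neg]

/-- the Hopf algebra -/
noncomputable instance hopf : HopfAlgebra F (Co F) :=
  HopfAlgebra.ofAlgHom (S₀ F)
    (by
      apply co_ext
      intro i
      change Algebra.TensorProduct.lift (S₀ F) (AlgHom.id F _) (fun _ _ => Commute.all _ _)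
        (Δ₀ F (x F i)) = Algebra.ofId F _ (ε₀ F (x F i))
      fin_cases i
      · simp [Δ₀_0, ε₀_X, S₀_0]
      · simp [Δ₀_1, ε₀_X, S₀_1]
      · simp [Δ₀_2, ε₀_X, S₀_2, S₀_l0])
    (by
      apply co_ext
      intro i
      change Algebra.TensorProduct.lift (AlgHom.id F _) (S₀ F) (fun _ _ => Commute.all _ _)
        (Δ₀ F (x F i)) = Algebra.ofId F _ (ε₀ F (x F i))
      fin_cases i
      · simp [Δ₀_0, ε₀_X, S₀_0]
      · simp [Δ₀_1, ε₀_X, S₀_1]
      · simp [Δ₀_2, ε₀_X, S₀_2, S₀_l1])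

theorem counit_co (a : Co F) : Coalgebra.counit (R := F) a = ε₀ F a := rfl
theorem comul_co (a : Co F) : comul (R := F) a = Δ₀ F a := rfl

end Q2.FK
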