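import Mathlib

set_option autoImplicit false

/-!
# Group algebras of elementary abelian groups in their characteristic
-/

namespace Q2.FK

section
variable {p : ℕ} [hp : Fact p.Prime] {k : Type} [Field k] [CharP k p] {G : Type}

theorem pow_p_alg [CommGroup G] (hG : ∀ g : G, g ^ p = 1) (r : MonoidAlgebra k G) :
    ∃ c : k, r ^ p = algebraMap k _ c := by
  have : CharP (MonoidAlgebra k G) p :=
    charP_of_injective_algebraMap (algebraMap k (MonoidAlgebra k G)).injective p
  induction r using MonoidAlgebra.induction_on with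
  | of g =>
    refine ⟨1, ?_⟩
    rw [← map_pow, hG, map_one, map_one]
  | add x y hx hy =>
    obtain ⟨c, hc⟩ := hx
    obtain ⟨d, hd⟩ := hy
    exact ⟨c + d, by rw [add_pow_char, hc, hd, map_add]⟩
  | smul a x hx =>
    obtain ⟨c, hc⟩ := hx
    refine ⟨a ^ p * c, ?_⟩
    rw [Algebra.smul_def, mul_pow, hc, map_mul, map_pow]

theorem local_alg [CommGroup G] (hG : ∀ g : G, g ^ p = 1) : IsLocalRing (MonoidAlgebra k G) := by
  have : CharP (MonoidAlgebra k G) p :=
    charP_of_injective_algebraMap (algebraMap k (MonoidAlgebra k G)).injective p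
  have hp0 : p ≠ 0 := hp.out.ne_zero
  have key : ∀ r : MonoidAlgebra k G, r ∈ nonunits (MonoidAlgebra k G) ↔ r ^ p = 0 := by
    intro r
    obtain ⟨c, hc⟩ := pow_p_alg (p := p) hG r
    constructor
    · intro h
      by_contra h0
      have hc0 : c ≠ 0 := by rintro rfl; exact h0 (by rw [hc, map_zero])
      apply h
      rw [← isUnit_pow_iff hp0, hc]
      exact (IsUnit.mk0 c hc0).map _
    · intro h hu
      exact (hu.pow p).ne_zero h
  apply IsLocalRing.of_nonunits_add
  intro a b ha hb
  rw [key] at ha hb ⊢
  rw [add_pow_char, ha, hb, add_zero]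

/-- A projective module whose dimension is at most the group order is cyclic. -/
theorem cyclic_of_projective [CommGroup G] [Finite G] (hG : ∀ g : G, g ^ p = 1) {M : Type}
    [AddCommGroup M] [Module k M] [Module.Finite k M] (hdim : Module.finrank k M ≤ Nat.card G)
    (ρ : Representation k G M) (hproj : Module.Projective (MonoidAlgebra k G) ρ.asModule) :
    ∃ b : M, ∀ m : M, ∃ r : MonoidAlgebra k G, ρ.asAlgebraHom r b = m := by
  have := local_alg (p := p) (k := k) hG
  have := Fintype.ofFinite G
  have hfin : Module.Finite k ρ.asModule := Module.Finite.equiv ρ.asModuleEquiv.symm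
  have : Module.Finite (MonoidAlgebra k G) ρ.asModule :=
    Module.Finite.of_restrictScalars_finite k (MonoidAlgebra k G) ρ.asModule
  have : Module.Free (MonoidAlgebra k G) ρ.asModule := Module.free_of_flat_of_isLocalRing
  have h1 := Module.finrank_mul_finrank k (MonoidAlgebra k G) ρ.asModule
  have h2 : Module.finrank k (MonoidAlgebra k G) = Nat.card G := by
    rw [Module.finrank_eq_card_basis (MonoidAlgebra.basis G k), Nat.card_eq_fintype_card]
  have h3 : Module.finrank k ρ.asModule = Module.finrank k M := ρ.asModuleEquiv.finrank_eq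
  rw [h2, h3] at h1
  have h4 : Module.finrank (MonoidAlgebra k G) ρ.asModule ≤ 1 := by
    have hpos : 0 < Nat.card G := Nat.card_pos
    by_contra h5
    push Not at h5
    nlinarith
  obtain ⟨v, hv⟩ := finrank_le_one_iff.1 h4
  refine ⟨ρ.asModuleEquiv v, fun m => ?_⟩
  obtain ⟨r, hr⟩ := hv (ρ.asModuleEquiv.symm m)
  refine ⟨r, ?_⟩
  rw [← Representation.asModuleEquiv_map_smul, hr, LinearEquiv.apply_symm_apply]

/-- Two families of operators commuting with a commutative group acting on a cyclic module
commute. -/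
theorem comm_of_cyclic [CommGroup G] {M : Type} [AddCommGroup M] [Module k M]
    (ρ : Representation k G M) (b : M) (hb : ∀ m : M, ∃ r : MonoidAlgebra k G, ρ.asAlgebraHom r b = m)
    (S T : M →ₗ[k] M) (hS : ∀ g m, S (ρ g m) = ρ g (S m)) (hT : ∀ g m, T (ρ g m) = ρ g (T m))
    (m : M) : S (T m) = T (S m) := by
  have lin : ∀ (U : M →ₗ[k] M), (∀ g m, U (ρ g m) = ρ g (U m)) → ∀ (r : MonoidAlgebra k G) m,
      U (ρ.asAlgebraHom r m) = ρ.asAlgebraHom r (U m) := by
    intro U hU r
    induction r using MonoidAlgebra.induction_on with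
    | of g => intro m; simpa [Representation.asAlgebraHom] using hU g m
    | add x y hx hy => intro m; simp [hx, hy]
    | smul a x hx => intro m; simp [hx]
  have key : S (T b) = T (S b) := by
    obtain ⟨r, hr⟩ := hb (T b)
    obtain ⟨s, hs⟩ := hb (S b)
    rw [← hr, ← hs, lin S hS, lin T hT, ← hr, ← hs, ← Module.End.mul_apply, ← Module.End.mul_apply,
      ← map_mul, ← map_mul, mul_comm]
  obtain ⟨r, rfl⟩ := hb m
  rw [lin T hT, lin S hS, key, lin S hS, lin T hT]

end

end Q2.FK
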