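import Pool.Agent.Q2.FK.Cent
import Pool.Agent.Q2.FK.Loc

set_option autoImplicit false
set_option linter.unusedSectionVars false

/-!
# No rational structure is projective over the rational points
-/

namespace Q2.FK

open TensorProduct Coalgebra Bialgebra WithConv

section grp
variable (F : Type) [Field F] [Fintype F]

/-- the group of rational points -/
abbrev Gp : Type := WithConv (Co F →ₐ[F] F)

variable {F}

theorem mul_x (g h : Gp F) (i : Fin 3) :
    (g * h).ofConv (x F i) = g.ofConv (x F i) + h.ofConv (x F i) := by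
  have h1 : (g * h).ofConv (x F i) = Algebra.TensorProduct.lift g.ofConv h.ofConv
      (fun _ _ => .all ..) (comul (R := F) (x F i)) := AlgHom.convMul_apply g h (x F i)
  have hl : ∀ (f : Co F →ₐ[F] F) i, f (lang F _ (x F i)) = 0 := by
    intro f i
    rw [lang_map, lang_apply, FiniteField.pow_card, sub_self]
  rw [h1, comul_co]
  fin_cases i
  · simp [Δ₀_0]
  · simp [Δ₀_1]
  · simp [Δ₀_2, hl]

theorem one_x (i : Fin 3) : (1 : Gp F).ofConv (x F i) = 0 := by
  have h1 : (1 : Gp F).ofConv (x F i) = algebraMap F F (Coalgebra.counit (R := F) (x F i)) :=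
    AlgHom.convOne_apply (x F i)
  rw [h1, counit_co, ε₀_X, map_zero]

theorem gp_ext {g h : Gp F} (H : ∀ i, g.ofConv (x F i) = h.ofConv (x F i)) : g = h := by
  apply WithConv.ofConv_injective
  exact co_ext H

theorem gp_comm (g h : Gp F) : g * h = h * g := by
  apply gp_ext
  intro i
  rw [mul_x, mul_x, add_comm]

theorem pow_x (g : Gp F) (n : ℕ) (i : Fin 3) : (g ^ n).ofConv (x F i) = n • g.ofConv (x F i) := by
  induction n with
  | zero => rw [pow_zero, one_x, zero_smul]
  | succ n ih => rw [pow_succ, mul_x, ih, succ_nsmul]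

theorem gp_exp (p : ℕ) [CharP F p] (g : Gp F) : g ^ p = 1 := by
  apply gp_ext
  intro i
  rw [pow_x, one_x, nsmul_eq_mul, CharP.cast_eq_zero, zero_mul]

/-- points are given by their coordinates -/
noncomputable def gpEquiv : Gp F ≃ (Fin 3 → F) where
  toFun g i := g.ofConv (x F i)
  invFun v := WithConv.toConv (ev v)
  left_inv g := by
    apply gp_ext
    intro i
    exact ev_x _ i
  right_inv v := by
    funext i
    exact ev_x _ i

theorem gp_card : Nat.card (Gp F) = Fintype.card F ^ 3 := by
  rw [Nat.card_congr gpEquiv, Nat.card_eq_fintype_card, Fintype.card_fun, Fintype.card_fin]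

instance : Finite (Gp F) := Finite.of_equiv _ gpEquiv.symm

end grp

section
variable (F : Type) [Field F] [Fintype F] (k : Type) [Field k] [Algebra F k]

/-- the coordinate algebra of the Frobenius kernel is spanned by the reduced monomials -/
theorem span_monomials (q : ℕ) :
    Submodule.span k (Set.range (fun s : Fin 3 → Fin q =>
      Ideal.Quotient.mk (frobIdeal k (Bk F k) q)
        (∏ i, xs F k i ^ (s i : ℕ)))) = ⊤ := by
  rw [eq_top_iff]
  intro z _
  obtain ⟨a, rfl⟩ := Ideal.Quotient.mk_surjective z
  obtain ⟨P, rfl⟩ : ∃ P, (Φ F k).symm P = a := ⟨Φ F k a, (Φ F k).symm_apply_apply a⟩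
  have hX : ∀ i, (Φ F k).symm (MvPolynomial.X i) = xs F k i := by
    intro i
    rw [← Φ_xs F k i, AlgEquiv.symm_apply_apply]
  induction P using MvPolynomial.induction_on' with
  | monomial s c =>
    have h1 : (Φ F k).symm (MvPolynomial.monomial s c) = c • ∏ i, xs F k i ^ s i := by
      rw [MvPolynomial.monomial_eq, map_mul]
      have : (Φ F k).symm (MvPolynomial.C c) = algebraMap k _ c := (Φ F k).symm.commutes c
      rw [this, Algebra.smul_def]
      congr 1
      rw [Finsupp.prod_fintype _ _ (fun i => pow_zero _), map_prod]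
      simp only [map_pow, hX]
    rw [h1]
    have h2 : Ideal.Quotient.mk (frobIdeal k (Bk F k) q) (c • ∏ i, xs F k i ^ s i) =
        c • Ideal.Quotient.mk (frobIdeal k (Bk F k) q) (∏ i, xs F k i ^ s i) := rfl
    rw [h2]
    apply Submodule.smul_mem
    by_cases hs : ∀ i, s i < q
    · apply Submodule.subset_span
      exact ⟨fun i => ⟨s i, hs i⟩, rfl⟩
    · push Not at hs
      obtain ⟨i, hi⟩ := hs
      have h3 : (∏ i, xs F k i ^ s i) ∈ frobIdeal k (Bk F k) q := by
        rw [← Finset.mul_prod_erase Finset.univ _ (Finset.mem_univ i),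
          ← Nat.add_sub_cancel' hi, pow_add, mul_assoc]
        apply Ideal.mul_mem_right
        exact Ideal.subset_span ⟨xs F k i, counit_xs F k i, rfl⟩
      rw [Ideal.Quotient.eq_zero_iff_mem.2 h3]
      exact zero_mem _
  | add P Q hP hQ =>
    rw [map_add, map_add]
    exact add_mem (hP trivial) (hQ trivial)

theorem finite_quot (q : ℕ) : Module.Finite k (Bk F k ⧸ frobIdeal k (Bk F k) q) := by
  refine ⟨⟨(Set.finite_range (fun s : Fin 3 → Fin q =>
      Ideal.Quotient.mk (frobIdeal k (Bk F k) q)
        (∏ i, xs F k i ^ (s i : ℕ)))).toFinset, ?_⟩⟩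
  rw [Set.Finite.coe_toFinset]
  exact span_monomials F k q

theorem finrank_quot (q : ℕ) : Module.finrank k (Bk F k ⧸ frobIdeal k (Bk F k) q) ≤ q ^ 3 := by
  have h := finrank_range_le_card (R := k) (fun s : Fin 3 → Fin q =>
      Ideal.Quotient.mk (frobIdeal k (Bk F k) q)
        (∏ i, xs F k i ^ (s i : ℕ)))
  rw [Set.finrank, span_monomials F k q, finrank_top, Fintype.card_fun, Fintype.card_fin,
    Fintype.card_fin] at h
  exact h

/-- **Main theorem.** -/
theorem main (p : ℕ) [Fact p.Prime] [CharP F p] {M : Type} [AddCommGroup M] [Module k M]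
    (C : Comod k (BC F k (Co F)) M) (hC : C.IsRegular (Fintype.card F)) :
    ¬ Module.Projective (MonoidAlgebra k (Gp F)) C.pointRep.asModule := by
  intro hproj
  have : CharP k p := (Algebra.charP_iff F k p).1 inferInstance
  obtain ⟨e, he⟩ := hC
  have h1 : Module.Finite k (KerAlg k (BC F k (Co F)) (Fintype.card F)) :=
    finite_quot F k (Fintype.card F)
  have : Module.Finite k M := Module.Finite.equiv e.symm
  have hdim : Module.finrank k M ≤ Nat.card (Gp F) := by
    rw [gp_card, e.finrank_eq]
    exact finrank_quot F k _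
  let _ : CommGroup (Gp F) := { (inferInstance : Group (Gp F)) with mul_comm := gp_comm }
  obtain ⟨b, hb⟩ := cyclic_of_projective (p := p) (gp_exp p) hdim C.pointRep hproj
  have hq : 2 ≤ Fintype.card F := Fintype.one_lt_card
  have hcomm := comm_of_cyclic C.pointRep b hb (C.act (dI F k 0)) (C.act (dI F k 1))
    (fun g m => (act_point_comm F k C g.ofConv (dI F k 0) m).symm)
    (fun g m => (act_point_comm F k C g.ofConv (dI F k 1) m).symm)
  have h2 := Rop_comm C (frobIdeal k (Bk F k) (Fintype.card F))
    (counit_frob F k hq) e he (dI F k 0) (dI F k 1) (dI_frob F k 0 hq) (dI_frob F k 1 hq) hcomm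
    (xs F k 2)
  exact one_ne_zero (((Rop_values F k).1.symm.trans h2).trans (Rop_values F k).2)

end

end Q2.FK
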