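import Pool.Agent.Q2.FK.Coord

set_option autoImplicit false
set_option linter.unusedSectionVars false

/-!
# The group is connected and unipotent
-/

namespace Q2.FK

open TensorProduct Coalgebra Bialgebra

section
variable (F : Type) [Field F] [Fintype F] (k : Type) [Field k] [Algebra F k]

theorem isDomain_Bk : IsDomain (Bk F k) := (Φ F k).toMulEquiv.isDomain _

theorem finiteType_co : Algebra.FiniteType F (Co F) :=
  inferInstanceAs (Algebra.FiniteType F (MvPolynomial (Fin 3) F))

/-- the weights -/
def wt (i : Fin 3) : ℕ := if i = 2 then 2 * Fintype.card F + 1 else 1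

theorem wt_pos (i : Fin 3) : 0 < wt F i := by
  unfold wt; split_ifs <;> omega

/-- the filtration of the coordinate algebra by weight -/
noncomputable def Fil (n : ℕ) : Submodule k (Bk F k) :=
  Submodule.span k {a | ∃ s : Fin 3 → ℕ, ∑ i, wt F i * s i ≤ n ∧ a = ∏ i, xs F k i ^ s i}

theorem Fil_mono {m n : ℕ} (h : m ≤ n) : Fil F k m ≤ Fil F k n := by
  apply Submodule.span_mono
  rintro a ⟨s, hs, rfl⟩
  exact ⟨s, hs.trans h, rfl⟩

theorem Fil_mul {m n : ℕ} {a b : Bk F k} (ha : a ∈ Fil F k m) (hb : b ∈ Fil F k n) :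
    a * b ∈ Fil F k (m + n) := by
  unfold Fil at ha hb
  induction ha using Submodule.span_induction with
  | mem a ha =>
    obtain ⟨s, hs, rfl⟩ := ha
    induction hb using Submodule.span_induction with
    | mem b hb =>
      obtain ⟨t, ht, rfl⟩ := hb
      apply Submodule.subset_span
      refine ⟨s + t, ?_, ?_⟩
      · simp only [Pi.add_apply, mul_add, Finset.sum_add_distrib]
        omega
      · rw [← Finset.prod_mul_distrib]
        simp only [Pi.add_apply, pow_add]
    | zero => rw [mul_zero]; exact zero_mem _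
    | add x y _ _ hx hy => rw [mul_add]; exact add_mem hx hy
    | smul r x _ hx => rw [mul_smul_comm]; exact Submodule.smul_mem _ _ hx
  | zero => rw [zero_mul]; exact zero_mem _
  | add x y _ _ hx hy => rw [add_mul]; exact add_mem hx hy
  | smul r x _ hx => rw [smul_mul_assoc]; exact Submodule.smul_mem _ _ hx

theorem one_mem_Fil (n : ℕ) : (1 : Bk F k) ∈ Fil F k n := by
  apply Submodule.subset_span
  exact ⟨0, by simp, by simp⟩

theorem Fil_pow {m : ℕ} {a : Bk F k} (ha : a ∈ Fil F k m) (n : ℕ) : a ^ n ∈ Fil F k (m * n) := by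
  induction n with
  | zero => rw [pow_zero]; exact one_mem_Fil F k _
  | succ n ih => rw [pow_succ, mul_add, mul_one]; exact Fil_mul F k ih ha

theorem xs_mem (i : Fin 3) : xs F k i ∈ Fil F k (wt F i) := by
  apply Submodule.subset_span
  refine ⟨Pi.single i 1, ?_, ?_⟩
  · rw [Finset.sum_eq_single i]
    · simp
    · intro j _ hj; simp [hj]
    · intro h; exact absurd (Finset.mem_univ i) h
  · rw [Finset.prod_eq_single i]
    · simp
    · intro j _ hj; simp [hj]
    · intro h; exact absurd (Finset.mem_univ i) h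

theorem ls_mem (i : Fin 3) (hi : i ≠ 2) : ls F k i ∈ Fil F k (Fintype.card F) := by
  have h1 : wt F i = 1 := by unfold wt; rw [if_neg hi]
  have h2 := xs_mem F k i
  rw [h1] at h2
  have h3 := Fil_pow F k h2 (Fintype.card F)
  rw [one_mul] at h3
  exact sub_mem (Fil_mono F k (Fintype.one_lt_card (α := F)).le h2) h3

theorem Fil_zero {a : Bk F k} (ha : a ∈ Fil F k 0) : ∃ c : k, a = c • 1 := by
  unfold Fil at ha
  induction ha using Submodule.span_induction with
  | mem a ha =>
    obtain ⟨s, hs, rfl⟩ := ha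
    have h0 : ∀ i, s i = 0 := by
      intro i
      have h1 : wt F i * s i ≤ ∑ i, wt F i * s i :=
        Finset.single_le_sum (f := fun i => wt F i * s i) (fun _ _ => Nat.zero_le _)
          (Finset.mem_univ i)
      have h2 := wt_pos F i
      have h3 : wt F i * s i = 0 := by omega
      rcases Nat.mul_eq_zero.1 h3 with h | h
      · omega
      · exact h
    exact ⟨1, by simp [h0]⟩
  | zero => exact ⟨0, by simp⟩
  | add x y _ _ hx hy =>
    obtain ⟨c, rfl⟩ := hx
    obtain ⟨d, rfl⟩ := hy
    exact ⟨c + d, by rw [add_smul]⟩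
  | smul r x _ hx =>
    obtain ⟨c, rfl⟩ := hx
    exact ⟨r * c, by rw [mul_smul]⟩

theorem Fil_exhaust (a : Bk F k) : ∃ n, a ∈ Fil F k n := by
  obtain ⟨P, rfl⟩ : ∃ P, (Φ F k).symm P = a := ⟨Φ F k a, (Φ F k).symm_apply_apply a⟩
  have hX : ∀ i, (Φ F k).symm (MvPolynomial.X i) = xs F k i := by
    intro i
    rw [← Φ_xs F k i, AlgEquiv.symm_apply_apply]
  induction P using MvPolynomial.induction_on' with
  | monomial s c =>
    have h1 : (Φ F k).symm (MvPolynomial.monomial s c) = c • ∏ i, xs F k i ^ s i := by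
      rw [MvPolynomial.monomial_eq, map_mul]
      have : (Φ F k).symm (MvPolynomial.C c) = algebraMap k _ c := (Φ F k).symm.commutes c
      rw [this, Algebra.smul_def]
      congr 1
      rw [Finsupp.prod_fintype _ _ (fun i => pow_zero _), map_prod]
      simp only [map_pow, hX]
    rw [h1]
    exact ⟨_, Submodule.smul_mem _ _ (Submodule.subset_span ⟨s, le_rfl, rfl⟩)⟩
  | add P Q hP hQ =>
    obtain ⟨m, hm⟩ := hP
    obtain ⟨n, hn⟩ := hQ
    refine ⟨max m n, ?_⟩
    rw [map_add]
    exact add_mem (Fil_mono F k (le_max_left _ _) hm) (Fil_mono F k (le_max_right _ _) hn)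

/-- the induced filtration of the tensor square -/
noncomputable def DF (n : ℕ) : Submodule k (Bk F k ⊗[k] Bk F k) :=
  Submodule.span k {t | ∃ (i j : ℕ) (a b : Bk F k), i + j ≤ n ∧ a ∈ Fil F k i ∧ b ∈ Fil F k j ∧
    t = a ⊗ₜ b}

theorem DF_mono {m n : ℕ} (h : m ≤ n) : DF F k m ≤ DF F k n := by
  apply Submodule.span_mono
  rintro a ⟨i, j, a, b, hij, ha, hb, rfl⟩
  exact ⟨i, j, a, b, hij.trans h, ha, hb, rfl⟩

theorem DF_mul {m n : ℕ} {a b : Bk F k ⊗[k] Bk F k} (ha : a ∈ DF F k m) (hb : b ∈ DF F k n) :
    a * b ∈ DF F k (m + n) := by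
  unfold DF at ha hb
  induction ha using Submodule.span_induction with
  | mem a ha =>
    obtain ⟨i, j, a, a', hij, ha, ha', rfl⟩ := ha
    induction hb using Submodule.span_induction with
    | mem b hb =>
      obtain ⟨i', j', b, b', hij', hb, hb', rfl⟩ := hb
      apply Submodule.subset_span
      refine ⟨i + i', j + j', a * b, a' * b', by omega, Fil_mul F k ha hb, Fil_mul F k ha' hb', ?_⟩
      rw [Algebra.TensorProduct.tmul_mul_tmul]
    | zero => rw [mul_zero]; exact zero_mem _
    | add x y _ _ hx hy => rw [mul_add]; exact add_mem hx hy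
    | smul r x _ hx => rw [mul_smul_comm]; exact Submodule.smul_mem _ _ hx
  | zero => rw [zero_mul]; exact zero_mem _
  | add x y _ _ hx hy => rw [add_mul]; exact add_mem hx hy
  | smul r x _ hx => rw [smul_mul_assoc]; exact Submodule.smul_mem _ _ hx

theorem tmul_mem {i j n : ℕ} (h : i + j ≤ n) {a b : Bk F k} (ha : a ∈ Fil F k i)
    (hb : b ∈ Fil F k j) : a ⊗ₜ[k] b ∈ DF F k n :=
  Submodule.subset_span ⟨i, j, a, b, h, ha, hb, rfl⟩

theorem one_mem_DF (n : ℕ) : (1 : Bk F k ⊗[k] Bk F k) ∈ DF F k n := by
  rw [Algebra.TensorProduct.one_def]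
  exact tmul_mem F k (i := 0) (j := 0) (by omega) (one_mem_Fil F k 0) (one_mem_Fil F k 0)

theorem DF_pow {m : ℕ} {a : Bk F k ⊗[k] Bk F k} (ha : a ∈ DF F k m) (n : ℕ) :
    a ^ n ∈ DF F k (m * n) := by
  induction n with
  | zero => rw [pow_zero]; exact one_mem_DF F k _
  | succ n ih => rw [pow_succ, mul_add, mul_one]; exact DF_mul F k ih ha

theorem comul_xs_mem (i : Fin 3) : comul (R := k) (xs F k i) ∈ DF F k (wt F i) := by
  have h1 : xs F k i ⊗ₜ[k] (1 : Bk F k) ∈ DF F k (wt F i) :=
    tmul_mem F k (i := wt F i) (j := 0) (by omega) (xs_mem F k i) (one_mem_Fil F k 0)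
  have h2 : (1 : Bk F k) ⊗ₜ[k] xs F k i ∈ DF F k (wt F i) :=
    tmul_mem F k (i := 0) (j := wt F i) (by omega) (one_mem_Fil F k 0) (xs_mem F k i)
  fin_cases i
  · change comul (R := k) (xs F k 0) ∈ _
    rw [comul_0]
    exact add_mem h1 h2
  · change comul (R := k) (xs F k 1) ∈ _
    rw [comul_1]
    exact add_mem h1 h2
  · change comul (R := k) (xs F k 2) ∈ _
    rw [comul_2]
    refine add_mem (add_mem h1 h2) ?_
    have hw : wt F 2 = 2 * Fintype.card F + 1 := by unfold wt; rw [if_pos rfl]
    change _ ∈ DF F k (wt F 2)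
    rw [hw]
    exact tmul_mem F k (i := Fintype.card F) (j := Fintype.card F) (by omega)
      (ls_mem F k 0 (by decide)) (ls_mem F k 1 (by decide))

theorem comul_mem {n : ℕ} {a : Bk F k} (ha : a ∈ Fil F k n) : comul (R := k) a ∈ DF F k n := by
  unfold Fil at ha
  induction ha using Submodule.span_induction with
  | mem a ha =>
    obtain ⟨s, hs, rfl⟩ := ha
    refine DF_mono F k hs ?_
    rw [Fin.prod_univ_three, Fin.sum_univ_three, Bialgebra.comul_mul, Bialgebra.comul_mul,
      Bialgebra.comul_pow, Bialgebra.comul_pow, Bialgebra.comul_pow]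
    exact DF_mul F k (DF_mul F k (DF_pow F k (comul_xs_mem F k 0) _)
      (DF_pow F k (comul_xs_mem F k 1) _)) (DF_pow F k (comul_xs_mem F k 2) _)
  | zero => rw [map_zero]; exact zero_mem _
  | add x y _ _ hx hy => rw [map_add]; exact add_mem hx hy
  | smul r x _ hx => rw [map_smul]; exact Submodule.smul_mem _ _ hx

theorem conv_kill {n : ℕ} {g f : Bk F k →ₗ[k] k} (hg : ∀ a ∈ Fil F k n, g a = 0) (hf : f 1 = 0)
    (a : Bk F k) (ha : a ∈ Fil F k (n + 1)) : conv g f a = 0 := by
  have h1 := comul_mem F k ha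
  have key : ∀ t ∈ DF F k (n + 1), TensorProduct.lid k k (TensorProduct.map g f t) = 0 := by
    intro t ht
    unfold DF at ht
    induction ht using Submodule.span_induction with
    | mem a ha =>
      obtain ⟨i, j, a, b, hij, ha, hb, rfl⟩ := ha
      rw [TensorProduct.map_tmul, TensorProduct.lid_tmul]
      by_cases hi : i ≤ n
      · rw [hg a (Fil_mono F k hi ha), zero_smul]
      · have hj : j = 0 := by omega
        subst hj
        obtain ⟨c, rfl⟩ := Fil_zero F k hb
        rw [map_smul, hf, smul_zero, smul_zero]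
    | zero => simp
    | add x y _ _ hx hy => rw [map_add, map_add, hx, hy, add_zero]
    | smul r x _ hx => rw [map_smul, map_smul, hx, smul_zero]
  rw [conv_eq]
  exact key _ h1

/-- the group is unipotent: every nonzero module has a nonzero fixed vector -/
theorem unipotent {M : Type} [AddCommGroup M] [Module k M] [Nontrivial M]
    (C : Comod k (Bk F k) M) : ∃ m : M, m ≠ 0 ∧ C.IsFixed m := by
  by_contra hcon
  push Not at hcon
  -- only the zero vector is killed by all functionals which vanish at `1`
  have h0 : ∀ m : M, (∀ f : Bk F k →ₗ[k] k, f 1 = 0 → C.act f m = 0) → m = 0 := by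
    intro m hm
    by_contra hne
    apply hcon m hne
    have h1 : ∀ f : Bk F k →ₗ[k] k, C.act f m = f 1 • m := by
      intro f
      have h2 := hm (f - f 1 • Coalgebra.counit (R := k) (A := Bk F k)) (by simp)
      have h3 : C.act (f - f 1 • Coalgebra.counit (R := k) (A := Bk F k)) m =
          C.act f m - f 1 • C.act (Coalgebra.counit (R := k) (A := Bk F k)) m := by
        rw [C.act_apply, C.act_apply, C.act_apply, LinearMap.lTensor_sub, LinearMap.lTensor_smul]
        simp
      have h4 : C.act (Coalgebra.counit (R := k) (A := Bk F k)) m = m := C.act_counit m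
      rw [h3, h4, sub_eq_zero] at h2
      exact h2
    unfold Comod.IsFixed
    classical
    let b := Module.Basis.ofVectorSpace k (Bk F k)
    apply (TensorProduct.equivFinsuppOfBasisRight (M := M) b).injective
    ext i
    have h2 := h1 (b.coord i)
    have key : ∀ t : M ⊗[k] Bk F k, TensorProduct.equivFinsuppOfBasisRight (M := M) b t i =
        TensorProduct.rid k M ((b.coord i).lTensor M t) := by
      intro t
      induction t using TensorProduct.induction_on with
      | zero => simp
      | add x y hx hy => simp only [map_add, Finsupp.add_apply, hx, hy]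
      | tmul m a =>
        rw [TensorProduct.equivFinsuppOfBasisRight_apply_tmul_apply]
        simp
    rw [key, key, ← C.act_apply, h2]
    simp
  have h1 : ∀ (n : ℕ) (m : M), (∀ f : Bk F k →ₗ[k] k, (∀ a ∈ Fil F k n, f a = 0) →
      C.act f m = 0) → m = 0 := by
    intro n
    induction n with
    | zero =>
      intro m hm
      apply h0 m
      intro f hf
      apply hm f
      intro a ha
      obtain ⟨c, rfl⟩ := Fil_zero F k ha
      rw [map_smul, hf, smul_zero]
    | succ n ih =>
      intro m hm
      apply h0 m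
      intro f hf
      apply ih
      intro g hg
      have h5 : C.act g (C.act f m) = C.act (conv g f) m := C.act_act _ _ m
      rw [h5]
      apply hm
      exact conv_kill F k hg hf
  obtain ⟨m, hm⟩ := exists_ne (0 : M)
  apply hm
  -- the coaction of `m` involves only finitely many functions
  have h2 : ∀ t : M ⊗[k] Bk F k, ∃ n, ∀ f : Bk F k →ₗ[k] k, (∀ a ∈ Fil F k n, f a = 0) →
      TensorProduct.rid k M (f.lTensor M t) = 0 := by
    intro t
    induction t using TensorProduct.induction_on with
    | zero => exact ⟨0, fun f _ => by simp⟩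
    | add x y hx hy =>
      obtain ⟨n, hn⟩ := hx
      obtain ⟨n', hn'⟩ := hy
      refine ⟨max n n', fun f hf => ?_⟩
      rw [map_add, map_add, hn f (fun a ha => hf a (Fil_mono F k (le_max_left _ _) ha)),
        hn' f (fun a ha => hf a (Fil_mono F k (le_max_right _ _) ha)), add_zero]
    | tmul m a =>
      obtain ⟨n, hn⟩ := Fil_exhaust F k a
      refine ⟨n, fun f hf => ?_⟩
      rw [LinearMap.lTensor_tmul, TensorProduct.rid_tmul, hf a hn, zero_smul]
  obtain ⟨n, hn⟩ := h2 (C.δ m)
  exact h1 n m hn

end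

end Q2.FK
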